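import Pool.Agent.Helper38.RSP.Goals3
import Pool.Agent.Helper51.PP.GoalsA2

/-!
# Project PP (MP_fc6b1e_nt, density theorem), part A1: uniform bounds for ray class characters

`UniB F` (exponential sums, power saving, polynomial in the norm of the modulus), `L(s, χ) ≪ 1 + log N(𝔪)`,
the prime sum `∑_v Re χ(v) N(v)^(-s) ≤ log(1 + log N(𝔪)) + C`, and the number of ideals with the weight
`exp(-N(I)/Z)` and a power saving. `F` is totally complex, `n = [F : ℚ]`.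
-/

namespace Pool.Agent.Helper94.PP

open NumberField Module IsDedekindDomain
open Pool.Agent.Helper38.RS (hf Gf absN)
open Pool.Agent.Helper38.RSP (Lc)
open Pool.Agent.Helper51.PP (RC UniB)

/-- Admissible weights: `|w(x)| ≤ A x^(-a)` and `|w(x) - w(y)| ≤ A x^(-a) (y - x)/x` for
`1 ≤ x ≤ y`. -/
structure Wt (a A : ℝ) (w : ℝ → ℝ) : Prop where
  bd : ∀ x, 1 ≤ x → |w x| ≤ A * x ^ (-a)
  lip : ∀ x y, 1 ≤ x → x ≤ y → |w x - w y| ≤ A * x ^ (-a) * ((y - x) / x)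

/-- `g_w(α) = h(α)/G(α) · w(|N α|)`. -/
noncomputable def gw {F : Type} [Field F] [NumberField F] (w : ℝ → ℝ) (α : F) : ℝ :=
  hf α / Gf α * w (absN α)

/-- The character `χ` is not trivial on the principal ideals prime to `𝔪`. -/
def NTP {F : Type} [Field F] [NumberField F] (𝔪 : Ideal (𝓞 F)) (χ : Ideal (𝓞 F) → ℂ) : Prop :=
  ∃ α : 𝓞 F, α ≠ 0 ∧ Ideal.span {α} ⊔ 𝔪 = ⊤ ∧ χ (Ideal.span {α}) ≠ 1

/-- **A1_WTE** (the weight `exp(-x/Z)`). For `0 ≤ a ≤ 1` and `Z > 0` it is admissible with `A = Z^a`.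

PROOF. Let `u = x/Z`. `u^a ≤ max 1 u ≤ exp u`, so `exp(-x/Z) = exp(-u) ≤ u^(-a) = Z^a x^(-a)`. For
`x ≤ y`: `0 ≤ exp(-x/Z) - exp(-y/Z) ≤ exp(-x/Z) (y - x)/Z = u exp(-u) (y - x)/x` (`1 - exp(-v) ≤ v`), and
`u exp(-u) ≤ u^(-a)` because `u^(1+a) ≤ max 1 (u²) ≤ exp u` (`u² ≤ 1 + u + u²/2 + u³/6 ≤ exp u`). -/
def A1_WTE : Prop :=
  ∀ a Z : ℝ, 0 ≤ a → a ≤ 1 → 0 < Z → Wt a (Z ^ a) (fun x ↦ Real.exp (-x / Z))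

/-- **A1_WTS** (the weight `x^(-s) (1 - exp(-x/Z))`). For `0 ≤ b ≤ 1`, `1 ≤ s ≤ 2`, `Z > 0` it is
admissible with `a = 1 - b` and `A = 3 Z^(-b)`.

PROOF. `u = x/Z`. `0 ≤ 1 - exp(-u) ≤ min 1 u ≤ u^b` and `x^(-s) ≤ x^(-1)` for `x ≥ 1`, so
`|w(x)| ≤ x^(-1) (x/Z)^b = Z^(-b) x^(-a)`. For `1 ≤ x ≤ y`:
`w(x) - w(y) = (x^(-s) - y^(-s)) (1 - exp(-x/Z)) - y^(-s) (exp(-x/Z) - exp(-y/Z))`. First term:
`0 ≤ x^(-s) - y^(-s) = x^(-s) (1 - (x/y)^s) ≤ x^(-s) s (1 - x/y) ≤ 2 x^(-1) (y - x)/x` (Bernoulli,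
`s ≥ 1`, and `y ≥ x`), times `u^b`: `≤ 2 Z^(-b) x^(-a) (y - x)/x`. Second term:
`0 ≤ exp(-x/Z) - exp(-y/Z) ≤ u exp(-u) (y - x)/x ≤ u^b (y - x)/x` (`u^(1-b) ≤ max 1 u ≤ exp u`) and
`y^(-s) ≤ x^(-1)`: `≤ Z^(-b) x^(-a) (y - x)/x`. -/
def A1_WTS : Prop :=
  ∀ b s Z : ℝ, 0 ≤ b → b ≤ 1 → 1 ≤ s → s ≤ 2 → 0 < Z →
    Wt (1 - b) (3 * Z ^ (-b)) (fun x ↦ x ^ (-s) * (1 - Real.exp (-x / Z)))

/-- **A1_KEY** (the key estimate, uniform). For `0 ≤ a ≤ 1` there is `C` such that for every admissible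
weight and all `v, α ∈ 𝓞_F` with `v ≠ 0`, `α ≠ 0`, `α + v ≠ 0`:
`|g_w(α) - g_w(α + v)| ≤ C A house(v)^(n+1) house(α)^(-(n a + 1))`.

PROOF (copy of `Helper79.RS.KEY`, whose lemmas `place_le`, `absN_eq`, `finrank_eq`, `absN_le_house`,
`absN_mul_le`, `absN_ratio`, `house_ratio`, `hf_ratio`, `Gf_ratio`, `pow_bound`, `one_le_absN`, `house_pos`
can be cited). Let `x = α`, `y = α + v`, `V = house v ≥ 1`, `H = house x ≥ 1`; `N(x), N(y) ≥ 1`; `G ≥ c`,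
`0 ≤ h/G ≤ 1`. We may suppose `A ≥ 0` (it follows from `Wt.bd`).
(B) For a place `w₀` and `z` one of `x, y`, `t = w₀(z)`, `H_z = house z`:
`(h(z)/G(z)) N(z)^(-a) ≤ c^(-1) t² H_z^(-(n a + 2))`. Indeed `h/G ≤ c^(-1) N³/H^(3n)`,
`N² H^(n+2) ≤ t² H^(3n)` (`N H² ≤ t² H^n` and `N ≤ H^n`), `N^(1-a) ≤ H^(n (1-a))`; so the left side is at
most `c^(-1) N^(1-a) t²/H^(n+2) ≤ c^(-1) t² H^(n(1-a) - n - 2)`.
CASE 0: `H ≤ 4V`. `|g_w(z)| ≤ A`, so the difference is `≤ 2A ≤ 2A (4V)^(n+1) H^(-(na+1))` (`1 ≤ H ≤ 4V`,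
`n a + 1 ≤ n + 1`).
CASE 1: `H > 4V` and `t = min_w w(x) = w₀(x) ≤ 4V`. By (B) `|g_w(x)| ≤ c^(-1) A (4V)² H^(-(na+2))`; for `y`:
`w₀(y) ≤ 5V`, `house y ≥ (3/4) H`, so `|g_w(y)| ≤ c^(-1) A (5V)² (4/3)^(n+2) H^(-(na+2))`. (`H ≥ 1`,
`V² ≤ V^(n+1)` because `n ≥ 2`.)
CASE 2: `t > 4V`. `η = V/t < 1/4`, `ρ = 1 + 2η`: `w(y) ≤ ρ w(x)` and `w(x) ≤ ρ w(y)` for all places. So
`h(y)/G(y) ≤ ρ^(12n) h(x)/G(x)` and conversely, hence `|h(y)/G(y) - h(x)/G(x)| ≤ (ρ^(12n) - 1) h(x)/G(x)`;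
`N(y) ≤ ρ^n N(x)`, `N(x) ≤ ρ^n N(y)`. `|w(N(y))| ≤ A N(y)^(-a) ≤ A ρ^n N(x)^(-a)`. By `Wt.lip`, applied to
the smaller and the larger one of `N(x)`, `N(y)`: `|w(N(x)) - w(N(y))| ≤ A ρ^n N(x)^(-a) (ρ^n - 1)`. So
`|g_w(y) - g_w(x)| ≤ (h(x)/G(x)) A N(x)^(-a) ρ^n ((ρ^(12n) - 1) + (ρ^n - 1))
≤ C_n η (h(x)/G(x)) A N(x)^(-a)` (`pow_bound`, `η ≤ 1/4`), and by (B), `η t = V`, `t ≤ H`:
`≤ C_n V A c^(-1) t H^(-(na+2)) ≤ C_n V A c^(-1) H^(-(na+1))`. -/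
def A1_KEY : Prop :=
  ∀ (F : Type) [Field F] [NumberField F] [IsTotallyComplex F] (a : ℝ), 0 ≤ a → a ≤ 1 → ∃ C : ℝ,
    0 ≤ C ∧ ∀ (A : ℝ) (w : ℝ → ℝ), Wt a A w → ∀ v α : 𝓞 F, v ≠ 0 → α ≠ 0 → α + v ≠ 0 →
      |gw w (α : F) - gw w ((α + v : 𝓞 F) : F)| ≤
        C * A * house (v : F) ^ (finrank ℚ F + 1) *
          house (α : F) ^ (-((finrank ℚ F : ℝ) * a + 1))

/-- **A1_UNF** (unfolding). If `∑_J |w(N J)|` converges, then for `‖f‖ ≤ 1` and an ideal `Λ`: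
`∑_{α ∈ Λ, α ≠ 0} f((α)) g_w(α) = ∑_{J ≤ Λ principal, J ≠ 0} f(J) w(N J)`, and `∑ |g_w(α)|` converges.

PROOF (copy of `Helper17.RS.UNF`, whose lemmas `absN_unit_mul`, `absN_eq_absNorm`, `par`, `par_bij`, ...
can be cited). The map `α ↦ (α)` from the nonzero elements of `Λ` to the nonzero principal ideals `≤ Λ` is
surjective, its fibres are the orbits of the units (simply transitive), `absN` is constant on the fibre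
and equal to `N(J)`, and `∑_ε h(ε α)/G(ε α) = ∑_ε h(ε α)/G(α) = 1` by `S_GFB`, with nonnegative terms.
Sum first over the fibres; absolute convergence: `∑_α |g_w(α)| = ∑_J |w(N J)|`. -/
def A1_UNF : Prop :=
  ∀ (F : Type) [Field F] [NumberField F] (w : ℝ → ℝ),
    (Summable fun J : {J : Ideal (𝓞 F) // J ≠ ⊥} ↦ |w (Ideal.absNorm J.1)|) →
    ∀ f : Ideal (𝓞 F) → ℂ, (∀ J, ‖f J‖ ≤ 1) → ∀ Λ : Ideal (𝓞 F),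
    (Summable fun α : {α : 𝓞 F // α ≠ 0 ∧ α ∈ Λ} ↦ |gw w ((α.1 : 𝓞 F) : F)|) ∧
    ∑' α : {α : 𝓞 F // α ≠ 0 ∧ α ∈ Λ}, f (Ideal.span {α.1}) * (gw w ((α.1 : 𝓞 F) : F) : ℂ) =
      ∑' J : {J : Ideal (𝓞 F) // J ≠ ⊥ ∧ J ≤ Λ ∧ J.IsPrincipal},
        f J.1 * (w (Ideal.absNorm J.1) : ℂ)

/-- **A1_RPS** (small representatives). There is `C` such that for every nonzero ideal `Λ` every element
of `𝓞_F` is congruent modulo `Λ` to an element of house at most `C N(Λ)`.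

PROOF. Let `b_i` be a basis of `𝓞_F` over `ℤ` (`RingOfIntegers.basis`). `N = N(Λ)` is in `Λ`
(`Ideal.absNorm_mem`) and `N ≥ 1`. If `β = ∑ x_i b_i` let `ρ = ∑ (x_i mod N) b_i`, `0 ≤ x_i mod N < N`; then
`ρ - β ∈ N 𝓞_F ⊆ Λ` and `house ρ ≤ ∑ |x_i mod N| house(b_i) ≤ N ∑ house(b_i)`. -/
def A1_RPS : Prop :=
  ∀ (F : Type) [Field F] [NumberField F], ∃ C : ℝ, 0 ≤ C ∧ ∀ Λ : Ideal (𝓞 F), Λ ≠ ⊥ →
    ∀ β : 𝓞 F, ∃ ρ : 𝓞 F, ρ - β ∈ Λ ∧ house (ρ : F) ≤ C * Ideal.absNorm Λ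

/-- **A1_PAR** (pairing, uniform). Let `1 - 1/n < a ≤ 1`. There is `C` such that for every admissible
weight with `∑_J |w(N J)| < ∞`, every nonzero ideal `Λ` and every function `η` with `‖η‖ ≤ 1`, periodic
modulo `Λ`: `|∑_{α ≠ 0} η(α) g_w(α) - (∑_{ρ ∈ 𝓞_F/Λ} η(ρ)) ∑_{α ∈ Λ, α ≠ 0} g_w(α)| ≤ C A N(Λ)^(n+2)`.

PROOF (as `Helper4.RS.PAR`; from `S_LSM`, `A1_KEY`, `A1_UNF`, `A1_RPS`, `S_GFB`). Choose a system `R` of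
representatives `ρ` of `𝓞_F/Λ` with `house ρ ≤ C₁ N(Λ)` (`A1_RPS`); `|R| = N(Λ)`. The sum over `α ≠ 0` is the
sum over `ρ ∈ R` of `η(ρ) ∑_{β ∈ Λ, β + ρ ≠ 0} g_w(β + ρ)`, and
`|∑_{β ∈ Λ, β + ρ ≠ 0} g_w(β + ρ) - ∑_{β ∈ Λ, β ≠ 0} g_w(β)|` is zero if `ρ = 0`, otherwise at most the sum
over the `β ∈ Λ` with `β ≠ 0`, `β + ρ ≠ 0` of
`|g_w(β) - g_w(β + ρ)| ≤ C A (C₁ N(Λ))^(n+1) house(β)^(-(n a + 1))` (`A1_KEY`), plus at most two terms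
`≤ A` (`h/G ≤ 1`, `N ≥ 1`); `∑_{β ≠ 0} house(β)^(-(n a + 1)) < ∞` by `S_LSM` as `n a + 1 > n`. All series
converge absolutely by `A1_UNF`. Total: `N(Λ) (C' A N(Λ)^(n+1) + 2A)`. -/
def A1_PAR : Prop :=
  ∀ (F : Type) [Field F] [NumberField F] [IsTotallyComplex F] (a : ℝ),
    1 - 1 / (finrank ℚ F : ℝ) < a → a ≤ 1 → ∃ C : ℝ, 0 ≤ C ∧
  ∀ (A : ℝ) (w : ℝ → ℝ), Wt a A w →
    (Summable fun J : {J : Ideal (𝓞 F) // J ≠ ⊥} ↦ |w (Ideal.absNorm J.1)|) →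
  ∀ Λ : Ideal (𝓞 F), Λ ≠ ⊥ → ∀ η : 𝓞 F → ℂ, (∀ α, ‖η α‖ ≤ 1) →
    (∀ α β, β ∈ Λ → η (α + β) = η α) →
    ‖∑' α : {α : 𝓞 F // α ≠ 0}, η α.1 * (gw w ((α.1 : 𝓞 F) : F) : ℂ) -
      (∑ᶠ ρ : 𝓞 F ⧸ Λ, η (Function.surjInv Ideal.Quotient.mk_surjective ρ)) *
        ∑' α : {α : 𝓞 F // α ≠ 0 ∧ α ∈ Λ}, (gw w ((α.1 : 𝓞 F) : F) : ℂ)‖ ≤
      C * A * (Ideal.absNorm Λ : ℝ) ^ (finrank ℚ F + 2)

/-- **A1_REP** (representatives of the classes, of polynomial norm). There is `C` such that for every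
nonzero ideal `𝔪` there are nonzero ideals `c_j`, `j` in the class group, coprime to `𝔪`, of norm
`≤ C N(𝔪)^n`, such that for every nonzero ideal `J` there is exactly one `j` with `J c_j` principal.

PROOF. For every class `j` fix a nonzero integral ideal `I_j` in it. Let `𝔪' = 2𝔪` (so that some prime
divides `𝔪'`). There is `x ∈ I_j` with `x ∉ I_j 𝔭` for all primes `𝔭 ∣ 𝔪'` (Chinese remainder theorem, see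
the proof of `RS.S_REP`, `Helper3.RS.REP`); this property depends only on `x` modulo `I_j 𝔪'`, which
contains the integer `N(I_j 𝔪')`, so by `A1_RPS`, applied with `Λ = I_j 𝔪'`, we may suppose
`house x ≤ C₁ N(I_j 𝔪') ≤ C₂ N(𝔪)`, `C₂` independent of `𝔪`. `x ≠ 0` as `0 ∈ I_j 𝔭`. Let
`c_j = x I_j^(-1)`, i.e. `(x) = I_j c_j` (`x ∈ I_j`): coprime to `𝔪'`, because `𝔭 ∣ c_j` implies
`x ∈ I_j 𝔭`. `N(c_j) ≤ N((x)) = |N x| ≤ (house x)^n ≤ C₂^n N(𝔪)^n`. `c_j` is in the class `j^(-1)`. So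
`J c_j` is principal if and only if `j` is the class of `J`. -/
def A1_REP : Prop :=
  ∀ (F : Type) [Field F] [NumberField F], ∃ C : ℝ, 0 ≤ C ∧ ∀ 𝔪 : Ideal (𝓞 F), 𝔪 ≠ ⊥ →
  ∃ c : ClassGroup (𝓞 F) → Ideal (𝓞 F),
    (∀ j, c j ≠ ⊥ ∧ c j ⊔ 𝔪 = ⊤ ∧
      (Ideal.absNorm (c j) : ℝ) ≤ C * (Ideal.absNorm 𝔪 : ℝ) ^ finrank ℚ F) ∧
    ∀ J : Ideal (𝓞 F), J ≠ ⊥ → ∃! j, (J * c j).IsPrincipal

open Classical in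
/-- **A1_ORT** (orthogonality). Let `χ` be a ray class character modulo `𝔪` which is not trivial on
principal ideals, `c ≠ 0` an ideal coprime to `𝔪`, `η(α) = χ((α))` if `α ∈ c`, `0` otherwise. Then `η` is
periodic modulo `c 𝔪`, `η(0) = 0`, and its sum over `𝓞_F/(c 𝔪)` is zero.

PROOF. `𝔪 ≠ ⊤`, otherwise all `χ((α)) = 1`, `α ≠ 0`, by `ray`. `χ(⊥) = 0`. CLAIM: `χ((α)) = χ((β))` if
`α - β ∈ 𝔪`. If `(α) ⊔ 𝔪 ≠ ⊤` then `(β) ⊔ 𝔪 ≠ ⊤` and both values are `0` (by `zero` or `ncop`). If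
`(α) ⊔ 𝔪 = ⊤`, then `α ≠ 0` because `𝔪 ≠ ⊤`; choose `α'` with `α α' - 1 ∈ 𝔪`; `α' ≠ 0` because `𝔪 ≠ ⊤`;
`(β) ⊔ 𝔪 = ⊤`, `β ≠ 0`, `β α' - 1 ∈ 𝔪`; so `χ((α)) χ((α')) = 1 = χ((β)) χ((α'))` by `ray` and `mul`, and
`χ((α')) ≠ 0`. If `α - β ∈ c 𝔪` then `α ∈ c` iff `β ∈ c`. Sum: let `α₀` be as in `NTP`. By the Chinese
remainder theorem choose `α₁` with `α₁ - α₀ ∈ 𝔪`, `α₁ - 1 ∈ c`. It is invertible modulo `c 𝔪`, so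
`ρ ↦ α₁ ρ` is a bijection of `𝓞_F/(c 𝔪)`, `α₁ α ∈ c` iff `α ∈ c`, `χ((α₁ α)) = χ((α₁)) χ((α))`,
`χ((α₁)) = χ((α₀)) ≠ 1`. So the sum `T` satisfies `T = χ((α₀)) T`. -/
def A1_ORT : Prop :=
  ∀ (F : Type) [Field F] [NumberField F] (𝔪 : Ideal (𝓞 F)) (χ : Ideal (𝓞 F) → ℂ), RC 𝔪 χ →
    NTP 𝔪 χ → ∀ c : Ideal (𝓞 F), c ≠ ⊥ → c ⊔ 𝔪 = ⊤ →
    (∀ α β : 𝓞 F, β ∈ c * 𝔪 →
      (if α + β ∈ c then χ (Ideal.span {α + β}) else 0) =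
        (if α ∈ c then χ (Ideal.span {α}) else 0)) ∧
    ∑ᶠ ρ : 𝓞 F ⧸ c * 𝔪,
      (if Function.surjInv Ideal.Quotient.mk_surjective ρ ∈ c then
        χ (Ideal.span {Function.surjInv Ideal.Quotient.mk_surjective ρ}) else 0) = 0

/-- **A1_SUM** (the general sum). Let `1 - 1/n < a ≤ 1`. There are `C`, `E` such that for every ray class
character `χ` modulo `𝔪`, not trivial on principal ideals, and every `w` such that for all `N ≥ 1`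
the weight `x ↦ w(x/N)` is admissible with the constant `A N²` and `∑ |w(N(J)/N)| < ∞`:
`|∑_{J ≠ 0} χ(J) w(N J)| ≤ C A N(𝔪)^E`.

PROOF (from `A1_UNF`, `A1_PAR`, `A1_REP`, `A1_ORT`). Let the `c_j` be given by `A1_REP`, `N_j = N(c_j)`. For a
nonzero `J` with `J c_j` principal, `J' = J c_j` is a nonzero principal ideal contained in `c_j`,
`J ↦ J'` is a bijection onto those, `χ(J) = χ(c_j)^(-1) χ(J')`, `N(J) = N(J')/N_j`. So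
`∑_{J ≠ 0} χ(J) w(N J) = ∑_j χ(c_j)^(-1) ∑_{J' ≤ c_j principal} χ(J') w_j(N J')`, `w_j(x) = w(x/N_j)`,
and by `A1_UNF` for the weight `w_j` (second hypothesis on `w`, `N = N_j ≥ 1`), `f = χ`, `Λ = c_j`, the inner
sum is `∑_{α ≠ 0} η_j(α) g_{w_j}(α)`, `η_j` as in `A1_ORT`
with `c = c_j`. By `A1_PAR` with `Λ = c_j 𝔪` and `A1_ORT` its absolute value is at most
`C₁ A N_j² N(c_j 𝔪)^(n+2) ≤ C₂ A N(𝔪)^(2n + (n+1)(n+2))`. Sum over the classes `j`, `|χ(c_j)| = 1`. -/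
def A1_SUM : Prop :=
  ∀ (F : Type) [Field F] [NumberField F] [IsTotallyComplex F] (a : ℝ),
    1 - 1 / (finrank ℚ F : ℝ) < a → a ≤ 1 → ∃ (C : ℝ) (E : ℕ), 0 ≤ C ∧
  ∀ (𝔪 : Ideal (𝓞 F)) (χ : Ideal (𝓞 F) → ℂ), RC 𝔪 χ → NTP 𝔪 χ →
  ∀ (A : ℝ) (w : ℝ → ℝ), (∀ N : ℝ, 1 ≤ N → Wt a (A * N ^ 2) (fun x ↦ w (x / N))) →
    (∀ N : ℝ, 1 ≤ N →
      Summable fun J : {J : Ideal (𝓞 F) // J ≠ ⊥} ↦ |w (Ideal.absNorm J.1 / N)|) →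
    ‖∑' J : {J : Ideal (𝓞 F) // J ≠ ⊥}, χ J.1 * (w (Ideal.absNorm J.1) : ℂ)‖ ≤
      C * A * (Ideal.absNorm 𝔪 : ℝ) ^ E

/-- **A1_UNB** (exponential sums). `UniB F` holds for totally complex `F`.

PROOF (from `A1_SUM`, `A1_WTE`). `a = 1 - 1/(2n)`, `w(x) = exp(-x/Z)`, `Z ≥ 1`: `w(x/N) = exp(-x/(Z N))` is
admissible with `(Z N)^a ≤ Z^a N²` (`Wt` is monotone in `A`), and `∑_J exp(-N(J)/(Z N))` converges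
(`exp(-t) ≤ 2 t^(-2)` for `t > 0` and `∑ N(J)^(-2) < ∞`, `S_EUL`, or `A2_EXP`). So the sum over `J ≠ 0` is
at most `C Z^a N(𝔪)^E`; the term of `J = 0` is zero (`χ ⊥ = 0`). `c = 1/(2n)`, constant `max 1 C E`. -/
def A1_UNB : Prop :=
  ∀ (F : Type) [Field F] [NumberField F] [IsTotallyComplex F], UniB F

/-- **A1_LOG** (`L(s, χ)`). There is `C` such that `|L(s, χ)| ≤ C (1 + log N(𝔪))` for `1 < s ≤ 2`, for all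
ray class characters not trivial on principal ideals.

PROOF (from `A1_SUM`, `A1_WTS`, `S_ZET`, `S_EUL`). Let `a = 1 - b`, `b = 1/(2n)`, `C₁, E` from `A1_SUM`,
`Z = N(𝔪)^(E/b) ≥ 1`, `w(x) = x^(-s) (1 - exp(-x/Z))`,
`L(s, χ) = ∑ χ(J) N(J)^(-s) exp(-N(J)/Z) + ∑ χ(J) w(N J)` (absolutely convergent, `s > 1`).
Second sum: for `N ≥ 1`, `w(x/N) = N^s x^(-s) (1 - exp(-x/(Z N)))` on `x ≥ 1` (for `x > 0`), which by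
`A1_WTS` is admissible with the constant `N^s 3 (Z N)^(-b) ≤ 3 Z^(-b) N²`; and
`∑_J |w(N(J)/N)| ≤ N^s ∑_J N(J)^(-s)` converges. So it is at most `3 C₁ Z^(-b) N(𝔪)^E = 3 C₁`.
First sum: let `σ = 1 + 1/(1 + log Z) ∈ (1, 2]`. For `x ≥ 1`, `log(x/Z) ≤ x/Z - 1` gives
`(σ - 1) log x ≤ (log Z + x/Z)/(1 + log Z) ≤ 1 + x/Z`, so `x^(σ-1) exp(-x/Z) ≤ e` and
`x^(-s) exp(-x/Z) ≤ x^(-1) exp(-x/Z) ≤ e x^(-σ)`. So the sum is at most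
`e ζ_F(σ) ≤ C₂ (1 + log Z) = C₂ (1 + (E/b) log N(𝔪))` (`S_ZET`; `Lf 1 σ`). -/
def A1_LOG : Prop :=
  ∀ (F : Type) [Field F] [NumberField F] [IsTotallyComplex F], ∃ C : ℝ, 0 < C ∧
  ∀ (𝔪 : Ideal (𝓞 F)) (χ : Ideal (𝓞 F) → ℂ), RC 𝔪 χ → NTP 𝔪 χ →
  ∀ s : ℝ, 1 < s → s ≤ 2 → ‖Lc χ s‖ ≤ C * (1 + Real.log (Ideal.absNorm 𝔪))

/-- **A1_PRI** (sum over the primes). There is `C` such that
`∑_v Re χ(v) N(v)^(-s) ≤ log(1 + log N(𝔪)) + C` for `1 < s ≤ 2`, for all ray class characters not trivial on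
principal ideals.

PROOF. `χ(⊤) = 1` (`χ(⊤) = χ(⊤)²`, `‖χ(⊤)‖ = 1`), `‖χ‖ ≤ 1`. `SP_EUL` and `A1_LOG`:
`∑ ≤ log ‖L(s, χ)‖ + C ≤ log C' + log(1 + log N(𝔪)) + C` (`L(s, χ) ≠ 0`, `log` is increasing). -/
def A1_PRI : Prop :=
  ∀ (F : Type) [Field F] [NumberField F] [IsTotallyComplex F], ∃ C : ℝ,
  ∀ (𝔪 : Ideal (𝓞 F)) (χ : Ideal (𝓞 F) → ℂ), RC 𝔪 χ → NTP 𝔪 χ →
  ∀ s : ℝ, 1 < s → s ≤ 2 →
    ∑' v : HeightOneSpectrum (𝓞 F), (χ v.asIdeal).re * (Ideal.absNorm v.asIdeal : ℝ) ^ (-s) ≤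
      Real.log (1 + Real.log (Ideal.absNorm 𝔪)) + C

/-- **A1_FIX** (a fixed character). If `χ` is a ray class character modulo `𝔪` with `χ(I) ≠ 1` for some
`I ≠ 0` coprime to `𝔪` (it may be trivial on principal ideals) then `∑_v Re χ(v) N(v)^(-s) ≤ C` for
`1 < s ≤ 2`, `C` depending on `χ`.

PROOF. `SP_LBD` and `SP_EUL`, as before (`RC` and this `I` give `IsCh`). -/
def A1_FIX : Prop :=
  ∀ (F : Type) [Field F] [NumberField F] [IsTotallyComplex F] (𝔪 : Ideal (𝓞 F))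
    (χ : Ideal (𝓞 F) → ℂ), RC 𝔪 χ → (∃ I, I ≠ ⊥ ∧ I ⊔ 𝔪 = ⊤ ∧ χ I ≠ 1) → ∃ C : ℝ,
  ∀ s : ℝ, 1 < s → s ≤ 2 →
    ∑' v : HeightOneSpectrum (𝓞 F), (χ v.asIdeal).re * (Ideal.absNorm v.asIdeal : ℝ) ^ (-s) ≤ C

/-- **A1_IDE** (all ideals, with power saving). There are `κ > 0`, `c > 0`, `C` with
`|∑_{I ≠ 0} exp(-N(I)/Z) - κ Z| ≤ C Z^(1-c)` for `Z ≥ 1`.

PROOF (from `A1_UNF`, `A1_PAR`, `A1_REP` with `𝔪 = ⊤`, `A1_WTE`, `A2_CNT`). `a = 1 - 1/(2n)`, `c = 1/(2n)`,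
`S(Z)` = the sum. Let the `c_j` be given by `A1_REP` for `𝔪 = ⊤`, `N_j = N(c_j)`,
`X_Λ(Z) = ∑_{α ∈ Λ, α ≠ 0} g_w(α)` with `w(x) = exp(-x/Z)`. As in `A1_SUM`, `S(Z) = ∑_j X_{c_j}(Z N_j)`.
`h` and `G` are invariant under multiplication by `2`, so `X_{2Λ}(Z) = X_Λ(Z/2^n)`. `A1_PAR` with the
ideal `2Λ` and `η` = the indicator of `Λ` (`∑_ρ η(ρ) = [Λ : 2Λ] = 2^n`):
`|X_Λ(Z) - 2^n X_Λ(Z/2^n)| ≤ C_Λ Z^a` for all `Z > 0`. So `|S(Z) - 2^n S(Z/2^n)| ≤ C₁ Z^a` for `Z > 0`, i.e.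
`u(Z) = S(Z)/Z` satisfies `|u(Z) - u(Z/2^n)| ≤ C₁ Z^(a-1)`. For `k → ∞`, `u(2^(nk) Z) → κ`, where
`κ = lim #{I ≠ 0 : N(I) ≤ x}/x > 0` (`NumberField.Ideal.tendsto_norm_le_div_atTop`; Abelian theorem:
`S(Z) = ∑_{k ≥ 1} A(k) (exp(-k/Z) - exp(-(k+1)/Z))`, `A(k) = κ k + o(k)`, `A(k) ≤ C k`, and
`∑ k (exp(-k/Z) - exp(-(k+1)/Z)) = 1/(exp(1/Z) - 1) = Z + O(1)`). So
`|u(Z) - κ| ≤ ∑_{k ≥ 1} C₁ (2^(nk) Z)^(a-1) ≤ C Z^(a-1)`. -/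
def A1_IDE : Prop :=
  ∀ (F : Type) [Field F] [NumberField F] [IsTotallyComplex F], ∃ κ c C : ℝ, 0 < κ ∧ 0 < c ∧
  ∀ Z : ℝ, 1 ≤ Z →
    |∑' I : {I : Ideal (𝓞 F) // I ≠ ⊥}, Real.exp (-(Ideal.absNorm I.1 : ℝ) / Z) - κ * Z| ≤
      C * Z ^ (1 - c)

end Pool.Agent.Helper94.PP
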