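import Pool.Agent.Helper76.PP.Goals3

/-!
# Project PP, part B: packet B_IDN (norms and coprimality of the ideals `v 𝓞_F`)
-/

set_option autoImplicit false

namespace Pool.Agent.Helper94.PP

open NumberField Polynomial Module IsDedekindDomain
open Pool.Agent.Helper51.RP Pool.Agent.Helper42.PP Pool.Agent.Helper76.PP

section aux

variable {K : Type} (F : Type) [Field K] [NumberField K] [Field F] [NumberField F] [Algebra K F]

/-- The ideal of `F` generated by `v`. -/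
noncomputable def ext (v : HeightOneSpectrum (𝓞 K)) : Ideal (𝓞 F) :=
  v.asIdeal.map (algebraMap (𝓞 K) (𝓞 F))

theorem ext_ne_bot (v : HeightOneSpectrum (𝓞 K)) : ext F v ≠ ⊥ := by
  rw [ext, Ne, Ideal.map_eq_bot_iff_of_injective (FaithfulSMul.algebraMap_injective (𝓞 K) (𝓞 F))]
  exact v.ne_bot

theorem ext_norm (v : HeightOneSpectrum (𝓞 K)) :
    Ideal.absNorm (ext F v) = Ideal.absNorm v.asIdeal ^ finrank K F := by
  rw [ext, Ideal.absNorm_algebraMap, IsFractionRing.finrank_eq (𝓞 K) K (𝓞 F) F]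

theorem ext_ne_top (v : HeightOneSpectrum (𝓞 K)) : ext F v ≠ ⊤ := by
  intro h
  have h1 : Ideal.absNorm (ext F v) = 1 := by rw [h]; exact Ideal.absNorm_top
  rw [ext_norm] at h1
  have h0 : finrank K F ≠ 0 := finrank_pos.ne'
  have h2 : Ideal.absNorm v.asIdeal = 1 := (pow_eq_one_iff.1 h1).resolve_right h0
  exact v.isPrime.ne_top (Ideal.absNorm_eq_one_iff.1 h2)

theorem ext_coprime {v v' : HeightOneSpectrum (𝓞 K)} (h : v' ≠ v) :
    IsCoprime (ext F v) (ext F v') := by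
  rw [Ideal.isCoprime_iff_sup_eq, ext, ext, ← Ideal.map_sup]
  have h1 : v.asIdeal ⊔ v'.asIdeal = ⊤ := by
    apply Ideal.IsMaximal.coprime_of_ne v.isMaximal v'.isMaximal
    intro h2
    exact h (HeightOneSpectrum.ext h2.symm)
  rw [h1, Ideal.map_top]

theorem ext_coprime_p (p : ℕ) (v : HeightOneSpectrum (𝓞 K))
    (h : ¬ v.valuation K (p : K) < 1) : IsCoprime (ext F v) (Ideal.span {(p : 𝓞 F) ^ 3}) := by
  have h1 : v.asIdeal ⊔ Ideal.span {(p : 𝓞 K) ^ 3} = ⊤ := by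
    have hm := v.isMaximal
    by_contra hne
    have h2 : v.asIdeal = v.asIdeal ⊔ Ideal.span {(p : 𝓞 K) ^ 3} :=
      hm.eq_of_le hne le_sup_left
    have h3 : (p : 𝓞 K) ^ 3 ∈ v.asIdeal := by
      rw [h2]
      exact Ideal.mem_sup_right (Ideal.mem_span_singleton_self _)
    have h4 : (p : 𝓞 K) ∈ v.asIdeal := v.isPrime.mem_of_pow_mem 3 h3
    apply h
    have h5 := (HeightOneSpectrum.valuation_lt_one_iff_mem (K := K) v (p : 𝓞 K)).2 h4
    simpa using h5
  rw [Ideal.isCoprime_iff_sup_eq, ext]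
  have h2 : Ideal.span {(p : 𝓞 F) ^ 3} =
      (Ideal.span {(p : 𝓞 K) ^ 3}).map (algebraMap (𝓞 K) (𝓞 F)) := by
    rw [Ideal.map_span, Set.image_singleton, map_pow, map_natCast]
  rw [h2, ← Ideal.map_sup, h1, Ideal.map_top]

theorem ext_coprime_modu (p : ℕ) (S : Finset (HeightOneSpectrum (𝓞 K)))
    (hS : ∀ v : HeightOneSpectrum (𝓞 K), v.valuation K (p : K) < 1 → v ∈ S)
    (v : HeightOneSpectrum (𝓞 K)) (hv : v ∉ S) : IsCoprime (ext F v) (modu p F S) := by
  refine IsCoprime.mul_right (ext_coprime_p F p v fun h ↦ hv (hS v h)) ?_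
  refine IsCoprime.prod_right fun v' hv' ↦ ?_
  exact ext_coprime F (fun h ↦ hv (h ▸ hv'))

end aux

theorem b_idn : B_IDN := by
  intro p hp K F _ _ _ _ _ S hS
  refine ⟨?_, ?_, ?_⟩
  · have h1 : Ideal.span {(p : 𝓞 F) ^ 3} ≠ 0 := by
      rw [Ne, Ideal.zero_eq_bot, Ideal.span_singleton_eq_bot]
      exact pow_ne_zero 3 (Nat.cast_ne_zero.2 hp.out.ne_zero)
    have h2 : ∏ v ∈ S, v.asIdeal.map (algebraMap (𝓞 K) (𝓞 F)) ≠ 0 :=
      Finset.prod_ne_zero_iff.2 fun v _ ↦ ext_ne_bot F v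
    exact mul_ne_zero h1 h2
  · intro v
    exact ⟨ext_ne_bot F v, ext_ne_top F v, ext_norm F v,
      fun hv ↦ Ideal.isCoprime_iff_sup_eq.1 (ext_coprime_modu F p S hS v hv),
      fun v' h ↦ Ideal.isCoprime_iff_sup_eq.1 (ext_coprime F h)⟩
  · intro v D hvS hvD w hw
    have h1 : IsCoprime (ext F v) (mD p F S D) := by
      refine IsCoprime.mul_right (ext_coprime_modu F p S hS v hvS) ?_
      refine IsCoprime.prod_right fun v' hv' ↦ ?_
      exact ext_coprime F (fun h ↦ hvD (h ▸ hv'))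
    have h2 : ext F v ≤ w.asIdeal := by
      rw [ext, Ideal.map_le_iff_le_comap]
      exact le_of_eq hw.symm
    rw [eq_top_iff, ← Ideal.isCoprime_iff_sup_eq.1 h1]
    exact sup_le_sup_right h2 _

end Pool.Agent.Helper94.PP
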